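import Pool.Agent.H95.FJ.All

/-!
# The SOS conjecture: all gaps, for `n ≥ 145`

If `k (k + 1) / 2 < n` and `8 k + 17 ≤ n` (the second condition follows from the first for
`n ≥ 145`), every `m ∈ S_1(n)` with `m < (k + 1) n - k (k + 1) / 2` lies in one of the blocks
`[s n - s (s - 1) / 2, s n]`, `s ≤ k`.

Proof. Polarize: `K(z, Y) = ∑ p_j(z) conj(p_j)(Y) = (z · Y) A(z, Y)`.

1. For a subspace `D` with `2 dim D ≤ n` the values `p(z)`, `z ∈ D`, span at most `m / 2`
dimensions (generic orthogonal decomposition). For `Y ⟂ D` the derivative of `K` in `Y` shows that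
all `(z · U) A(z, Y)` are combinations of the `p_j` on `D`. Counting leading monomials: if there
are `t` points `z_i` and `t` points `Y_j` with `z_i · Y_j = 0` for all `i, j` and
`det A(z_i, Y_j) ≠ 0`, then `2 (t a - t (t - 1) / 2) ≤ m`, `a = ⌊n / 2⌋`. So `t ≤ k + 2`.

2. Let `s` be such that there are such points `z⁰`, `Y⁰` for `t = s`, but not for `t = s + 1`.
On `E = {z ⟂ Y⁰}`, `F = {Y ⟂ z⁰}` the
Schur complement shows `A = R + (z · Y) B` with `R` of rank `s`. So `(z · Y)^2 B` has rank at most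
`m + n s` on `E × F`; but a nonzero kernel `(z · Y)^2 B` has quadratically large rank (lowest order
terms at a point of the quadric where `B / (z · Y)^e` does not vanish). So `B = 0`: all
`(s + 1) × (s + 1)` determinants of `A` vanish on `E × F`, and, moving `z⁰`, `Y⁰`, everywhere.

3. So `A = ∑_{i < s} ε_i f_i(z) conj(f_i)(Y)` with real `ε_i ≠ 0` and linearly independent `f_i`. If
some `ε_i < 0`, positivity of `K` shows that the `z_k f_i` with `ε_i > 0` span all `z_k f_i`. So
there is `g` not in the span of `r < s` polynomials `f_1, ..., f_r` such that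
`g(z) z = ∑ f_a(z) B_a z` with constant matrices `B_a`. This is impossible if `(r + 2)^2 < 4 n`:
put `T_c = c_0 - ∑ c_a B_a`, `h = (g, f_1, ..., f_r)`, so `T_{h(z)} z = 0`. Let `e ≤ r` be the
largest dimension of `E_z = {T_c z : c}`. If `T_c z = 0` and `dim E_z = e`, then
`range T_c ⊆ E_z` (consider `z + t v`). Let `ρ` be the largest rank of the `T_{h(z)}`, attained at
`z₁` with `dim E_{z₁} = e`, and `K` the kernel and `I` the range of `T_{h(z₁)}`. For `w ∈ K` we get
`I ⊆ E_w` generically, so modulo `I` the `T_c w` span at most `e - ρ` dimensions. As the `T_{h(u)}`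
have rank at most `ρ` and span all `T_c` (`h` is linearly independent), all `T_c K` lie in a
subspace of dimension at most `ρ + (e - ρ) ρ`. For `T_c = 1`: `n - ρ ≤ ρ + (e - ρ) ρ`, so
`n ≤ ρ (r - ρ + 2) ≤ (r + 2)^2 / 4`.

4. So `A` is a sum of `s` squares, the `p_j` and the `z_k f_i` span the same space and
`s n - s (s - 1) / 2 ≤ m ≤ s n`.
-/

open MvPolynomial

namespace Pool.Agent.Results.MP_ce7760_an.AllGaps

/-- `SosRanks d n` is the set `S_d(n)` of all `m` such that there are `m` linearly independent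
holomorphic polynomials `p 0, ..., p (m-1)` on `ℂ^n` with
`∑ j, |p j (z)|^2 = ‖z‖^(2d) * A (z, conj z)` for a polynomial `A` in `z` and `conj z`. -/
def SosRanks (d n : ℕ) : Set ℕ :=
  {m | ∃ p : Fin m → MvPolynomial (Fin n) ℂ, LinearIndependent ℂ p ∧
    ∃ A : MvPolynomial (Fin n ⊕ Fin n) ℂ, ∀ z : Fin n → ℂ,
      ((∑ j, ‖eval z (p j)‖ ^ 2 : ℝ) : ℂ) =
        ((∑ k, ‖z k‖ ^ 2 : ℝ) : ℂ) ^ d *
          eval (Sum.elim z (fun k => (starRingEnd ℂ) (z k))) A}

/-- If `k (k + 1) / 2 < n` and `8 k + 17 ≤ n`, all `m ∈ S_1(n)` with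
`m < (k + 1) n - k (k + 1) / 2` lie in the blocks `[s n - s (s - 1) / 2, s n]`, `s ≤ k`. -/
theorem result : ∀ k n m : ℕ, 8 * k + 17 ≤ n → k * (k + 1) / 2 < n →
    m ∈ SosRanks 1 n → m + k * (k + 1) / 2 < (k + 1) * n →
    ∃ s : ℕ, s ≤ k ∧ s * n ≤ m + s * (s - 1) / 2 ∧ m ≤ s * n :=
  H95.FJ.all_top4

end Pool.Agent.Results.MP_ce7760_an.AllGaps
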