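import Pool.Agent.H95.FH.All

/-!
# The set `S_1(n)` for `n ≤ 4`, and its first gap for all `n`

For every `n` the only elements of `S_1(n)` below `2 n - 1` are `0` and `n`, and for `n ≤ 4` all
`m ≥ 2 n - 1` belong to `S_1(n)`.

Proof. Polarize: `K(z, w) = ∑ p_j(z) conj (p_j(w)) = <z, w> A(z, conj w)`, so `p(z) ⟂ p(w)`
whenever `z ⟂ w`. Let `m ≤ 2 n - 2`. A generic orthogonal decomposition of `ℂ^n` shows that the
values of `p` on a line span at most one dimension and the values on a plane at most three.
Passing to the part of top degree and dividing by common factors one may assume that `p` is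
homogeneous of degree `d + 1` and without common factor; then some plane contains no zero of `p`.
If `w` is orthogonal to a plane `D` and `A(·, conj w)` is not zero on `D`, all zeros of
`A(·, conj w)` in `D` have the same direction `p(z)` (otherwise the plane would give more than
three dimensions), and at a double zero the derivative of `p` has this direction too. For `n ≥ 4`
this gives, if `d ≥ 2`, infinitely many lines with the same direction `p(z)`; but then
`K(·, z)` vanishes on infinitely many hyperplanes, a contradiction. So `d ≤ 1`; the case `d = 0`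
gives `m ≤ n`, and for `d = 1` the matrix of `A` is positive semidefinite and diagonalisation
gives `m ≤ n` or `m ≥ 2 n - 1`.

For `n = 3`, `m = 4` the same argument shows that for generic `z` the `d` roots of `A(z, ·)` on
`z^⟂` are simple and have the same direction `p`; this is impossible for `d ≥ 3`. For `d = 2` the
roots are exchanged by an algebraic involution; a discriminant computation shows that the
discriminant is a square, so that `A` is a product of two bilinear forms `z^T M₁ Y`, `z^T M₂ Y`
and `p ∘ M₁` is a multiple of `p`. Unique factorisation of `K(M₁ z, Y)` gives relations between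
`M₁`, `M₂` and their adjoints, and in each case positivity of `K` is violated (for example by
`|z₁|^6 + |z₂|^6 + |z₃|^6 - 3 |z₁ z₂ z₃|^2`).
-/

open MvPolynomial

namespace Pool.Agent.Results.MP_ce7760_an.FirstGapAll

/-- `SosRanks d n` is the set `S_d(n)` of all `m` such that there are `m` linearly independent
holomorphic polynomials `p 0, ..., p (m-1)` on `ℂ^n` with
`∑ j, |p j (z)|^2 = ‖z‖^(2d) * A (z, conj z)` for a polynomial `A` in `z` and `conj z`. -/
def SosRanks (d n : ℕ) : Set ℕ :=
  {m | ∃ p : Fin m → MvPolynomial (Fin n) ℂ, LinearIndependent ℂ p ∧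
    ∃ A : MvPolynomial (Fin n ⊕ Fin n) ℂ, ∀ z : Fin n → ℂ,
      ((∑ j, ‖eval z (p j)‖ ^ 2 : ℝ) : ℂ) =
        ((∑ k, ‖z k‖ ^ 2 : ℝ) : ℂ) ^ d *
          eval (Sum.elim z (fun k => (starRingEnd ℂ) (z k))) A}

/-- For `n ≤ 4`, and for all `m < 2 n - 1` if `n ≥ 5`: `m` belongs to `S_1(n)` if and only if
`m = 0`, `m = n` or `m ≥ 2 n - 1`. -/
theorem result : ∀ n m : ℕ, 1 ≤ n → (n ≤ 4 ∨ m < 2 * n - 1) →
    (m ∈ SosRanks 1 n ↔ m = 0 ∨ m = n ∨ 2 * n - 1 ≤ m) :=
  H95.FH.final_of H95.FG.all_GAP H78.FG.t_NINE H95.FH.all_THREE

end Pool.Agent.Results.MP_ce7760_an.FirstGapAll
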